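import Pool.Agent.PW.Defs

set_option autoImplicit false

/-!
# Squad PW (`MP_b2b50d_lc`), block 3: pivot sets, the point, the generator

Every row is a `Prop`, to be proved as a theorem `xxx : XxxStmt` (or `(h : YyyStmt) → XxxStmt`); the
complete proofs are in the docstrings.  Paper proof: team store, `PAPER_PW58.md`, sections 1 and 3.
-/

namespace Pool.Agent.PW

open MvPolynomial
open Pool.Agent.RS (FF io)

section Defs

variable {E : Type} [Field E]

/-- The specialisation `x_i ↦ 0` (`i ∈ Z`), `x_i ↦ x_i` (`i ∉ Z`). -/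
noncomputable def kil (Z : Finset ℕ) : MvPolynomial ℕ E →ₐ[E] MvPolynomial ℕ E :=
  aeval fun i => if i ∈ Z then 0 else X i

/-- The specialisation `x_i ↦ x_i` (`i ∈ Z`), `x_i ↦ 0` (`i ∉ Z`). -/
noncomputable def kee (Z : Finset ℕ) : MvPolynomial ℕ E →ₐ[E] MvPolynomial ℕ E :=
  aeval fun i => if i ∈ Z then X i else 0

/-- The generator: `w_j`, `z_j` (`j < t`) and one more variable for every index `≥ n`. -/
noncomputable def genZ (E : Type) [Field E] (t n : ℕ) (i : ℕ) : MvPolynomial (Fin t ⊕ Fin t ⊕ ℕ) E :=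
  if i < n then ∑ j : Fin t, X (Sum.inr (Sum.inl j)) *
    ∏ l ∈ (Finset.range n).erase i, (X (Sum.inl j) - C (l : E))
  else X (Sum.inr (Sum.inr i))

end Defs

/-- ROW PIV (helper58).  PIVOT SETS EXIST outside every small set.

PROOF.  Show by induction on `p ≤ ρ`: there are distinct `z_0, ..., z_(p-1) ∉ Y` such that the columns
`(∂_(z_b) y_a)_a`, `b < p`, are linearly independent over `FF E` (for `p = ρ` the determinant is not
zero).  Step `p < ρ`: there is `θ ∈ A^ρ`, `θ ≠ 0`, with `∑ a, θ_a ∂_(z_b) y_a = 0` for all `b < p` and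
all `θ_a ∈ E[x_(z_0), ..., x_(z_(p-1))]`: the matrix has entries in the domain `E[x_z]` (`∂_(z_b) y_a`
depends on `x_(z_b)` only, because `z_b ∉ GM`) and fewer columns than rows.  Choose a point of `E^ℕ`
where some `θ_a` does not vanish; `θ(point) ∈ E^ρ` is not zero, `g = ∑ θ_a(point) y_a` has at least
`N > |Y| + p` variables, hence one, `i`, outside `Y` and `z_0, ..., z_(p-1)`, and `∂_i g ≠ 0`.  If
`∑ a, θ_a ∂_i y_a` were `0` then substituting the values of the point for the variables `≠ i` (the `θ_a`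
do not contain `x_i`) gives `∂_i g = 0`.  So the new column `z_p = i` is not in the span of the old
ones (`θ` kills the old ones).  150 lines. -/
def PivStmt : Prop := ∀ (E : Type) [Field E] [CharZero E] (ρ N : ℕ) (y : Fin ρ → MvPolynomial ℕ E)
  (GM : Finset ℕ), LinearIndependent E y → (∀ a, IsUG GM (y a)) →
    Robust N (Submodule.span E (Set.range y)) → ∀ Y : Finset ℕ, GM ⊆ Y → Y.card + ρ ≤ N →
    ∃ z : Fin ρ → ℕ, Piv y z ∧ ∀ b, z b ∉ Y

/-- ROW SPL (helper58).  SPLITTING.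

PROOF.  If all mixed derivatives between `Z` and its complement vanish, no monomial of `f` contains
both a variable in `Z` and one outside (characteristic 0: the coefficient of `m - e_i - e_j` in
`∂_i ∂_j f` is `m_i m_j coeff m f`).  So every monomial of `f` is constant, in `Z` only or outside `Z`
only, and `kil Z` keeps the monomials without variables in `Z`, `kee Z` those without variables
outside `Z` (the constant is kept by both).  80 lines. -/
def SplStmt : Prop := ∀ (E : Type) [Field E] [CharZero E] (f : MvPolynomial ℕ E) (Z : Finset ℕ),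
  (∀ i ∈ Z, ∀ j ∉ Z, pderiv i (pderiv j f) = 0) → f = kil Z f + kee Z f - C (coeff 0 f)

/-- ROW GNF (helper58).  THE GENERATOR IS FREE.

PROOF.  Let `I ∩ {0, ..., n-1} = {i_0, ..., i_(s-1)}`, `s ≤ m ≤ t`.  `π` = `aeval` with
`w_j ↦ C i_j`, `z_j ↦ C (∏ l < n, l ≠ i_j, (i_j - l))⁻¹ X_(i_j)` for `j < s`, `w_j, z_j ↦ 0` for
`j ≥ s`, and `u_i ↦ X_i` if `i ∈ I`, `0` otherwise.  For `i < n`, `j < s`: the product
`∏ l < n, l ≠ i, (i_j - l)` contains the factor `0` unless `i_j = i`.  80 lines. -/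
def GnfStmt : Prop := ∀ (E : Type) [Field E] [CharZero E] (t n m : ℕ), m ≤ t →
  Free E m (genZ E t n)

/-- ROW INP (helper58).  INDEPENDENT FAMILIES over `D`: let `f_a` be polynomials, `z'` a pivot set of
`f` outside `J1 ∪ I3` such that `∂_(z'_b) f_a` depends on `x_(z'_b)` only.  Then the `x_j` (`j ∈ J1`),
`ζ_i` (`i ∈ I3`) and `Ph ζ J1 f_a` are algebraically independent over `E`.

PROOF.  `π` for `I3 ∪ {z'_b}` (`Free`).  Let `π' : MvPolynomial ℕ D → MvPolynomial (ℕ ⊕ ℕ) E` be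
`X_j ↦ X (inl j)`, `C d ↦ rename inr (π d)`.  It is enough that the images are independent
(`AlgebraicIndependent.of_comp`).  Images: `X (inl j)`; `X (inr i)`; `f_a` with `x_j ↦ X (inl j)` for
`j ∈ J1`, `x_i ↦ X (inr i)` for `i ∈ I3 ∪ z'`, the others `↦ 0`.  Jacobian criterion
(`Pool.Agent.PW.H26.independent_of_minor`, reindexed) with the indices `inl j`, `inr i`, `inr z'_b`:
the matrix is block triangular with an identity block and the block of the derivatives of the images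
of `f_a` with respect to `inr z'_b`, which are the renamed `∂_(z'_b) f_a`.  150 lines.  STRONG. -/
def InpStmt : Prop := ∀ (E D : Type) [Field E] [CharZero E] [CommRing D] [Algebra E D]
  (ζ : ℕ → D) (m r : ℕ) (J1 I3 : Finset ℕ) (f : Fin r → MvPolynomial ℕ E) (z' : Fin r → ℕ),
    Free E m ζ → I3.card + r ≤ m → Disjoint J1 I3 → Piv f z' →
    (∀ b, z' b ∉ J1 ∧ z' b ∉ I3) → (∀ a b, (pderiv (z' b) (f a)).vars ⊆ {z' b}) →
    AlgebraicIndependent E (Sum.elim (fun j : J1 => (X (j : ℕ) : MvPolynomial ℕ D))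
      (Sum.elim (fun i : I3 => C (ζ i)) fun a => Ph ζ J1 (f a)))

/-- The data of the point: `e : D[x] → Om` agrees with the injective homomorphism `j` on `D` and on
all variables but the `x_(z b)`, and maps the `y_a` to `0`. -/
def IsPt {E D Om : Type} [Field E] [CommRing D] [Algebra E D] [Field Om] [Algebra E Om] {ρ : ℕ}
    (ζ : ℕ → D) (y : Fin ρ → MvPolynomial ℕ E) (J1 : Finset ℕ) (z : Fin ρ → ℕ)
    (j e : MvPolynomial ℕ D →ₐ[E] Om) : Prop :=
  Function.Injective j ∧ (∀ d, e (C d) = j (C d)) ∧ (∀ i ∉ Set.range z, e (X i) = j (X i)) ∧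
  ∀ a, e (Ph ζ (J1 ∪ Finset.univ.image z) (y a)) = 0

/-- ROW EPS (helper26).  THE POINT EXISTS.

PROOF (from PIV, SPL, INP, ALG1).  `Z = {z_b}`, `K = FractionRing (MvPolynomial ℕ D)`,
`Om = AlgebraicClosure K`.  `U_a` = `y_a` with `x_(z_b) ↦ X_b`, other variables `↦ 0`, minus the
constant term: `det (∂_b U_a) ≠ 0` (it is the image of the pivot determinant, a polynomial in the
`x_z`, because `z_b ∉ GM`), so the `U_a` are independent.
`σ_a = - Ph ζ J1 (kil Z y_a)` are independent: PIV gives a pivot set `z'`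
disjoint from `J1 ∪ Z` (`|J1| + ρ + ρ ≤ N`), INP for `f_a = kil Z y_a` (`∂_(z'_b) kil Z y_a =
kil Z ∂_(z'_b) y_a = ∂_(z'_b) y_a`, a polynomial in `x_(z'_b)`), `I3 = ∅`.  ALG1: `ι`, `U_a ↦ σ_a`.
`e`: `C d ↦ d`, `x_i ↦ x_i` for `i ∉ Z`, `x_(z_b) ↦ ι (X_b)`.  SPL for `y_a`, `Z`:
`y_a = kil Z y_a + (kee Z y_a - C c)`; `e (Ph ζ (J1 ∪ Z) (kil Z y_a)) = - σ_a` and
`e (Ph ζ (J1 ∪ Z) (kee Z y_a - C c)) = ι (U_a)`; sum `= 0`.  150 lines.  STRONG. -/
def EpsStmt : Prop := ∀ (E D : Type) [Field E] [CharZero E] [CommRing D] [IsDomain D] [Algebra E D]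
  (ζ : ℕ → D) (m ρ N : ℕ) (y : Fin ρ → MvPolynomial ℕ E) (GM J1 : Finset ℕ) (z : Fin ρ → ℕ),
    Free E m ζ → LinearIndependent E y → (∀ a, IsUG GM (y a)) →
    Robust N (Submodule.span E (Set.range y)) → GM ⊆ J1 → Piv y z → (∀ b, z b ∉ J1) →
    J1.card + ρ + ρ ≤ N → ρ ≤ m → ∃ (Om : Type) (_ : Field Om) (_ : Algebra E Om)
      (j e : MvPolynomial ℕ D →ₐ[E] Om), IsPt ζ y J1 z j e

/-- ROW PTJ (helper22).  (P2) SMALL JUNTAS DO NOT VANISH AT THE POINT.

PROOF (from PIV, SPL, INP, ALG2).  `Z = {z_b}`, `I = h.vars`, `I3 = I - (J1 ∪ Z)`.  PIV: pivot set `z'`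
disjoint from `J1 ∪ Z ∪ I` (`|J1| + ρ + k + ρ ≤ N`).  INP for `f_a = kil Z y_a`: the `x_j` (`j ∈ J1`),
`ζ_i` (`i ∈ I3`), `Ph ζ J1 f_a` are independent in `MvPolynomial ℕ D`; apply `j` (injective;
`AlgebraicIndependent.map'`); on these elements `j = e` (they do not contain the variables `z_b`).
ALG2 with the family `t = (e x_j, e ζ_i, e x_(z_b))`, as many elements: by `IsPt` and SPL
`e (Ph ζ J1 f_a) = - e (Ph ζ (J1 ∪ Z) (kee Z y_a)) + const` is a polynomial in the `e x_(z_b)`.  So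
`e x_j, e ζ_i, e x_(z_b)` are independent; `e (Ph ζ (J1 ∪ Z) h)` is the value at them of the nonzero
polynomial `h` (a variable of `h` is in `J1`, in `Z` or in `I3`), so it is not zero.  120 lines.
STRONG. -/
def PtjStmt : Prop := ∀ (E D Om : Type) [Field E] [CharZero E] [CommRing D] [IsDomain D]
  [Algebra E D] [Field Om] [Algebra E Om] (ζ : ℕ → D) (m ρ N k : ℕ)
  (y : Fin ρ → MvPolynomial ℕ E) (GM J1 : Finset ℕ) (z : Fin ρ → ℕ)
  (j e : MvPolynomial ℕ D →ₐ[E] Om),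
    Free E m ζ → LinearIndependent E y → (∀ a, IsUG GM (y a)) →
    Robust N (Submodule.span E (Set.range y)) → GM ⊆ J1 → Piv y z → (∀ b, z b ∉ J1) →
    J1.card + ρ + k + ρ ≤ N → k + ρ ≤ m → IsPt ζ y J1 z j e →
    ∀ h : MvPolynomial ℕ E, h ≠ 0 → h.vars.card ≤ k →
      e (Ph ζ (J1 ∪ Finset.univ.image z) h) ≠ 0

/-- ROW PTF (helper22).  (P3) FORMS OUTSIDE THE SPAN DO NOT VANISH AT THE POINT.

PROOF (from PIV, SPL, INP, PTJ, ALG2).  Let `G` be the junta set of `g`, `|G| ≤ c0`,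
`N1 = |J1| + ρ + c0 + ρ + 1 ≤ k`, `Z = {z_b}`.  CASE 1: some nonzero element of
`span (y_1, ..., y_ρ, g)`, `f = κ g + ∑ θ_a y_a`, has fewer than `N1` variables.  `κ ≠ 0` (otherwise
Robust, `N1 ≤ N`).  `e (Ph f) = κ e (Ph g)` (`IsPt`), and it is not `0` by PTJ
(`N1 ≤ k`).  CASE 2: `(y_1, ..., y_ρ, g)` (`Fin.snoc`) is linearly independent and its span is
`N1`-robust; junta set `GM ∪ G`.  PIV with `Y = J1 ∪ Z ∪ G` (`|Y| + ρ + 1 ≤ N1`): pivot set `z'` of
`ρ + 1` elements.  `I3 = G - (J1 ∪ Z)`.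
INP for `f_a = kil Z y_a` (`a < ρ`), `f_ρ = kil (Z ∪ G) g`: `x_j` (`j ∈ J1`), `ζ_i` (`i ∈ I3`),
`S_a = Ph ζ J1 f_a`, `S_g = Ph ζ J1 f_ρ` are independent, and so are their images under `j`, equal to
those under `e`.
Suppose `e (Ph ζ (J1 ∪ Z) g) = 0`.  SPL for `g` and `Z ∪ G` (a variable outside `Z ∪ G` is not in `G`):
`g = kil (Z ∪ G) g + kee (Z ∪ G) g - C c`, so `e S_g` is a polynomial in `e x_j` (`j ∈ J1`),
`e ζ_i` (`i ∈ I3`) and `e x_(z_b)`; the `e S_a` are polynomials in the `e x_(z_b)`.  So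
`|J1| + |I3| + ρ + 1` independent elements are polynomials in `|J1| + |I3| + ρ` elements: impossible
(ALG2 with one more element `0` on the right).  150 lines.  STRONG. -/
def PtfStmt : Prop := ∀ (E D Om : Type) [Field E] [CharZero E] [CommRing D] [IsDomain D]
  [Algebra E D] [Field Om] [Algebra E Om] (ζ : ℕ → D) (m ρ N k c0 : ℕ)
  (y : Fin ρ → MvPolynomial ℕ E) (GM J1 : Finset ℕ) (z : Fin ρ → ℕ)
  (j e : MvPolynomial ℕ D →ₐ[E] Om),
    Free E m ζ → LinearIndependent E y → (∀ a, IsUG GM (y a)) →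
    Robust N (Submodule.span E (Set.range y)) → GM ⊆ J1 → Piv y z → (∀ b, z b ∉ J1) →
    J1.card + ρ + c0 + ρ + 1 ≤ k → J1.card + ρ + k + ρ ≤ N → k + ρ + 1 ≤ m → IsPt ζ y J1 z j e →
    ∀ g : MvPolynomial ℕ E, IsUj c0 g → g ∉ Submodule.span E (Set.range y) →
      e (Ph ζ (J1 ∪ Finset.univ.image z) g) ≠ 0

/-- ROW PNT (helper58).  THE POINT, final form.

PROOF (from PIV, EPS, PTJ, PTF).  Collect.  10 lines. -/
def PntStmt : Prop := ∀ (E D : Type) [Field E] [CharZero E] [CommRing D] [IsDomain D] [Algebra E D]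
  (ζ : ℕ → D) (m ρ N k c0 : ℕ) (y : Fin ρ → MvPolynomial ℕ E) (GM J1 : Finset ℕ),
    Free E m ζ → LinearIndependent E y → (∀ a, IsUG GM (y a)) →
    Robust N (Submodule.span E (Set.range y)) → GM ⊆ J1 →
    J1.card + ρ + c0 + ρ + 1 ≤ k → J1.card + ρ + k + ρ ≤ N → k + ρ + 1 ≤ m →
    ∃ (z : Fin ρ → ℕ) (Om : Type) (_ : Field Om) (_ : Algebra E Om)
      (e : MvPolynomial ℕ D →ₐ[E] Om), Piv y z ∧ (∀ b, z b ∉ J1) ∧
      (∀ a, e (Ph ζ (J1 ∪ Finset.univ.image z) (y a)) = 0) ∧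
      (∀ h : MvPolynomial ℕ E, h ≠ 0 → h.vars.card ≤ k →
        e (Ph ζ (J1 ∪ Finset.univ.image z) h) ≠ 0) ∧
      ∀ g : MvPolynomial ℕ E, IsUj c0 g → g ∉ Submodule.span E (Set.range y) →
        e (Ph ζ (J1 ∪ Finset.univ.image z) g) ≠ 0

end Pool.Agent.PW
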