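import Pool.Agent.PW.Defs

set_option autoImplicit false

/-!
# Squad PW, blocks 0, 2, 4, 5, 6: calculus, descent, detection, rewriting, theorem P

Every row is a `Prop`, to be proved as a theorem `xxx : XxxStmt` (or `(h : YyyStmt) → XxxStmt`) in
`Pool/Agent/HelperN_PW/XXX.lean`; the complete proofs are in the docstrings.  Block 3 (pivot sets `PIV`,
the point `PT`, the generator) is `StmtsB.lean`.
-/

namespace Pool.Agent.PW

open MvPolynomial
open Pool.Agent.RS (FF io)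

/-! ## Block 0: calculus in the field of fractions -/

/-- ROW DER.  The derivations exist and commute.

PROOF.  Construct `D (a / b) = (b ∂a - a ∂b) / b ^ 2` (Mathlib: look for a derivation of a localisation,
for example through `Derivation.liftOfSurjective`, `KaehlerDifferential`, or by hand through
`IsLocalization`/`FractionRing` induction); the commutator of `dd i` and `dd j` is a derivation which
vanishes on `io E f`, hence on all quotients (`Derivation.leibniz_div`-like lemma: prove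
`D (u / v) = (v D u - u D v) / v ^ 2` first).  80 lines.  STRONG. -/
def DerStmt : Prop := ∀ (E : Type) [Field E],
  (∀ (i : ℕ) (f : MvPolynomial ℕ E), dd i (io E f) = io E (pderiv i f)) ∧
  (∀ (i j : ℕ) (w : FF E), dd i (dd j w) = dd j (dd i w)) ∧
  ∀ (D : Derivation E (FF E) (FF E)) (u v : FF E), v ≠ 0 →
    D (u / v) = (v * D u - u * D v) / v ^ 2

/-- ROW FGS.  `FG c G` is a linear subspace.

PROOF.  Induction on `c` for all `G`: `dd i` is linear.  20 lines. -/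
def FgsStmt : Prop := ∀ (E : Type) [Field E] (c : ℕ) (G : Finset ℕ),
  ∃ S : Submodule E (FF E), ∀ f, f ∈ S ↔ FG c G f

/-- ROW FGM.  Monotonicity, stability under the derivations, trading variables.

PROOF (uses DER and FGS).  (1) Induction on `c` for all `G`, `G'`: `i ∉ G'` implies `i ∉ G`,
`insert i G ⊆ insert i G'`.  (2) Induction on `c`: for `c = 0`, `dd i f = 0` and `FG 0 _ 0` (FGS).  Then
for all `c ≤ c'`.  (3) Induction on `c` for all `G`, `f`: `dd i (dd j f) = dd j (dd i f)`.  (4) Induction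
on `c`: let `i ∉ G`; if `i = g` then `FG c (insert g G) (dd g f)` by (3); if `i ≠ g` then `i ∉ insert g G`;
for `c = 0`, `dd i f = 0`; for `c + 1`, `dd i f` is in `FG c (insert i (insert g G))`, which is
`FG c (insert g (insert i G))`, so in `FG (c + 1) (insert i G)` by induction.  (5) `Finset.induction_on`
from (4).  60 lines. -/
def FgmStmt : Prop := ∀ (E : Type) [Field E],
  (∀ (c : ℕ) (G G' : Finset ℕ) (f : FF E), G ⊆ G' → FG c G f → FG c G' f) ∧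
  (∀ (c c' : ℕ) (G : Finset ℕ) (f : FF E), c ≤ c' → FG c G f → FG c' G f) ∧
  (∀ (c : ℕ) (G : Finset ℕ) (f : FF E) (j : ℕ), FG c G f → FG c G (dd j f)) ∧
  (∀ (c g : ℕ) (G : Finset ℕ) (f : FF E), FG c (insert g G) f → FG (c + 1) G f) ∧
  ∀ (c : ℕ) (G : Finset ℕ) (f : FF E), FG c G f → FG (c + G.card) ∅ f

/-- ROW FGX.  Products.

PROOF (uses FGS, FGM).  Induction on `n = c + c'` for all `c`, `c'`, `G`, `f`, `g`.  If
`c = c' = 0`: Leibniz.  Let `i ∉ G`, `dd i (f g) = f dd i g + g dd i f` (`Derivation.leibniz`, `smul` is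
`*`).  If `c' = c'' + 1`: `f` is in `FG c (insert i G)` by FGM (1) and `dd i g` in `FG c'' (insert i G)`,
so `f dd i g` is in `FG (c + c'') (insert i G)` by induction; if `c' = 0` then `dd i g = 0`; the same for
`g dd i f`; use FGM (2) and FGS for the sum.  The case where the target index is `0` is the first one.
50 lines. -/
def FgxStmt : Prop := ∀ (E : Type) [Field E] (c c' : ℕ) (G : Finset ℕ) (f g : FF E),
  FG c G f → FG c' G g → FG (c + c') G (f * g)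

/-- ROW FGZ.  `FG 0 G` is the field of fractions of the polynomials in the variables of `G`; it is
closed under inverses.

PROOF (uses DER).  `←`: `dd i` kills `io a` and `io b` for `i ∉ G` (`pderiv_eq_zero_of_notMem_vars`), and
quotient rule.  `→`: `f = io a / io b` in lowest terms (`IsLocalization`/`IsFractionRing`:
`IsFractionRing.exists_reduced_fraction`, the ring is a UFD: `IsRelPrime a b`).  For `i ∉ G`:
`b ∂_i a = a ∂_i b`, so `b ∣ ∂_i b` (`IsRelPrime.dvd_of_dvd_mul_left`), of smaller degree in `x_i`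
(`degreeOf`), so `∂_i b = 0`, and the same for `a`; in characteristic `0` this means that `x_i` does not
occur.  (RS or Helper82_RS may have `pderiv = 0 → i ∉ vars`.)  If `f ≠ 0` then `a ≠ 0` and
`f⁻¹ = io b / io a`; `0⁻¹ = 0`.  90 lines.  STRONG. -/
def FgzStmt : Prop := ∀ (E : Type) [Field E] [CharZero E] (G : Finset ℕ) (f : FF E),
  (FG 0 G f ↔ ∃ a b : MvPolynomial ℕ E, b ≠ 0 ∧ a.vars ⊆ G ∧ b.vars ⊆ G ∧ f = io E a / io E b) ∧
  (FG 0 G f → FG 0 G f⁻¹)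

/-- ROW FGP.  Forms, and polynomials in the variables of `G`; forms with junta set `G` are a linear
subspace, `pderiv j` of a form is a polynomial in `x_j` (`j ∉ G`) or in the variables of `G` (`j ∈ G`).

PROOF (uses DER).  (1) for `i ∉ G`, `dd i (io g) = io (∂_i g)`, and for `j ∉ insert i G`,
`∂_j ∂_i g = 0` by `IsUG`.  (2) `∂_i h = 0` for `i ∉ G`.  (3) `pderiv` is linear.  (4) For `j ∉ G`
and `i ≠ j`: `∂_i ∂_j g = 0`, and in characteristic `0` `x_i` does not occur in `∂_j g`.  For `j ∈ G` and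
`i ∉ G` the same.  (5) clear.  50 lines. -/
def FgpStmt : Prop := ∀ (E : Type) [Field E] [CharZero E] (G : Finset ℕ) (g : MvPolynomial ℕ E),
  (IsUG G g → FG 1 G (io E g)) ∧ (g.vars ⊆ G → FG 0 G (io E g)) ∧
  (∃ S : Submodule E (MvPolynomial ℕ E), ∀ f, f ∈ S ↔ IsUG G f) ∧
  (IsUG G g → (∀ j ∉ G, (pderiv j g).vars ⊆ {j}) ∧ ∀ j ∈ G, (pderiv j g).vars ⊆ G) ∧
  ∀ G' : Finset ℕ, G ⊆ G' → IsUG G g → IsUG G' g

/-- ROW RRS.  `RR k` is a subalgebra, stable under the derivations, monotone in `k`, and contains the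
inverses of the polynomials in at most `k` variables.

PROOF (uses DER).  `JUN E k` is a submonoid without `0` (closure induction: products of nonzero
elements), `a/b + a'/b' = (a b' + a' b)/(b b')`.  Quotient rule for `dd i`.  `Submonoid.closure_mono`.
60 lines. -/
def RrsStmt : Prop := ∀ (E : Type) [Field E] (k : ℕ),
  (∀ b ∈ JUN E k, b ≠ 0) ∧ (∃ S : Subalgebra E (FF E), ∀ w, w ∈ S ↔ RR k w) ∧
  (∀ (i : ℕ) (w : FF E), RR k w → RR k (dd i w)) ∧
  (∀ (k' : ℕ) (w : FF E), k ≤ k' → RR k w → RR k' w) ∧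
  (∀ a : MvPolynomial ℕ E, RR k (io E a)) ∧
  ∀ h : MvPolynomial ℕ E, h ≠ 0 → h.vars.card ≤ k → RR k (io E h)⁻¹

/-! ## Block 2: dual derivations and the descent -/

/-- ROW DLT.  The dual derivations.

PROOF (uses DER, FGP (4)).  `(VV y z).det ≠ 0`, so `(VV y z)⁻¹ * VV y z = 1`
(`Matrix.nonsing_inv_mul`), and `del y z a (io (y a')) = ∑ b, (VV y z)⁻¹ a b * io (∂_(z b) y_a') =
((VV y z)⁻¹ * VV y z) a a'`.  `VV y z = (io E).mapMatrix V'` with
`V' = Matrix.of fun b a => pderiv (z b) (y a)`, so `Δ = V'.det`, `io Δ = (VV y z).det`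
(`RingHom.map_det`), `(VV y z)⁻¹ a b = io (V'.adjugate a b) / io Δ` (`Matrix.inv_def`,
`RingHom.map_adjugate`).  All entries of `V'` lie in `supported E T` (a subalgebra) with
`T = {z b} ∪ G`, respectively `T = {z b}` if all `z b ∉ G`; so do determinant and adjugate (sums of
products; `Matrix.det_apply`, `Matrix.adjugate_apply` + `updateRow` or
`Subalgebra`-valued matrices).  90 lines.  STRONG. -/
def DltStmt : Prop := ∀ (E : Type) [Field E] [CharZero E] (ρ : ℕ) (y : Fin ρ → MvPolynomial ℕ E)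
  (G : Finset ℕ) (z : Fin ρ → ℕ), (∀ a, IsUG G (y a)) → Piv y z →
    (∀ a a', del y z a (io E (y a')) = if a = a' then 1 else 0) ∧
    (∃ Δ : MvPolynomial ℕ E, Δ ≠ 0 ∧ Δ.vars ⊆ Finset.univ.image z ∪ G ∧ ∀ a b, ∃ n : MvPolynomial ℕ E,
      n.vars ⊆ Finset.univ.image z ∪ G ∧ (VV y z)⁻¹ a b = io E n / io E Δ) ∧
    ((∀ b, z b ∉ G) → ∃ Δ : MvPolynomial ℕ E, Δ ≠ 0 ∧ Δ.vars ⊆ Finset.univ.image z ∧
      ∀ a b, ∃ n : MvPolynomial ℕ E,
        n.vars ⊆ Finset.univ.image z ∧ (VV y z)⁻¹ a b = io E n / io E Δ)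

/-- ROW EUF.  The dual derivations lower the order, the Euler operator keeps it.

PROOF (uses FGS, FGM, FGX, FGZ, FGP, RRS, DLT).  `T = G ∪ image z`.  By DLT (last part) and FGZ,
`(VV y z)⁻¹ a b` is in `FG 0 (image z)`, so in `FG 0 T`, and in `RR ρ`
(`Δ.vars.card ≤ (image z).card ≤ ρ`).  `dd (z b) H` is in `FG c (insert (z b) G)` (definition,
`z b ∉ G`), so in `FG c T`.  FGX with `0 + c = c`, sum over `b`: `del y z a H` is in `FG c T`.
`io (y a)` is in `FG 1 G`, so in `FG 1 T`; FGX with `1 + c`; `(j)⁻¹` is a scalar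
(`(j : FF E)⁻¹ * x = (j : E)⁻¹ • x`, FGS).  `RR`: RRS.  60 lines. -/
def EufStmt : Prop := ∀ (E : Type) [Field E] [CharZero E] (ρ c k j : ℕ)
  (y : Fin ρ → MvPolynomial ℕ E) (G : Finset ℕ) (z : Fin ρ → ℕ) (H : FF E),
  (∀ a, IsUG G (y a)) → Piv y z → (∀ b, z b ∉ G) → FG (c + 1) G H → RR k H → ρ ≤ k →
    (∀ a, FG c (G ∪ Finset.univ.image z) (del y z a H) ∧ RR k (del y z a H)) ∧
    FG (c + 1) (G ∪ Finset.univ.image z) (eul y z j H) ∧ RR k (eul y z j H)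

/-- ROW VAN.  A function of order `≤ c` which vanishes to order `c + 1` at the points is zero.

PROOF (uses FGZ).  Induction on `c` for all `G`, `X`.  Let first `c = 0`, `J1 = G`: `X = io a / io b` with
`a.vars, b.vars ⊆ G` (FGZ); if `X ≠ 0` then `a ≠ 0`, `(io a)⁻¹` is in `Fi 0` (`unitJ`), `io b` is in
`Fi 0` (`poly`), and `1 = X * (io b * (io a)⁻¹)` is in `Fi 1` (`mul`), a contradiction (`proper`).
Step: for `i ∉ G` the function `dd i X` is in `FG c (insert i G)`; for `J1 ⊇ insert i G` of at most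
`(insert i G).card + c = G.card + (c + 1)` elements the `Fi` of the hypothesis has `Fi (c + 2) X`,
hence `Fi (c + 1) (dd i X)` (`der`).  By induction `dd i X = 0` for all `i ∉ G`, that is
`FG 0 G X`; and `Fi 1 X` for `J1 = G` (`mono`), so `X = 0` by the first case.  50 lines. -/
def VanStmt : Prop := ∀ (E : Type) [Field E] [CharZero E] (ρ c0 k : ℕ)
  (y : Fin ρ → MvPolynomial ℕ E) (c : ℕ) (G : Finset ℕ) (X : FF E), FG c G X →
    (∀ J1 : Finset ℕ, G ⊆ J1 → J1.card ≤ G.card + c → ∃ Fi : ℕ → FF E → Prop,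
      Filt c0 k y J1 Fi ∧ Fi (c + 1) X) → X = 0

/-- Statement of PIV (block 3, proved by helper58): pivot sets. -/
def PivsStmt : Prop := ∀ (E : Type) [Field E] [CharZero E] (ρ N : ℕ) (y : Fin ρ → MvPolynomial ℕ E)
  (G Y : Finset ℕ), LinearIndependent E y → (∀ a, IsUG G (y a)) →
    Robust N (Submodule.span E (Set.range y)) → (Y ∪ G).card + ρ ≤ N →
    ∃ z : Fin ρ → ℕ, Piv y z ∧ ∀ b, z b ∉ Y ∪ G

/-- ROW DSC.  IDEAL POWER DESCENT: a function of order `≤ c` which vanishes at the points is a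
combination `∑ y_a h_a` with `h_a` of bounded order.

PROOF (from PIV, VAN, EUF, FGS, FGM, RRS).  `N0 = g + ρ (c + 1)`, `r = g + ρ c + c`,
`c' = g + ρ c + c + k + ρ`.  Choose pivot sets `z_0, ..., z_(c-1)` (PIV, by recursion with
`Y = U_l := ⋃ (l' < l), image z_l'`, `(Y ∪ G).card + ρ ≤ g + ρ l + ρ ≤ N0`) such that `z_l b ∉ G ∪ U_l`.
`H_0 = H`, `H_(l+1) = eul y z_l (l + 1) H_l`.  Induction on `l ≤ c`: `H_l` is in `FG c (G ∪ U_l)` and
`RR (k + ρ)` (EUF with `c = (c - 1) + 1`, since `l < c` gives `c ≥ 1`; `IsUG (G ∪ U_l) (y a)` by FGP), and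
`H - H_l = ∑ y_a h_(l,a)` with `h_(l+1,a) = h_(l,a) + (l + 1)⁻¹ del y z_l a H_l`, where
`del y z_l a H_l` is in `FG (c - 1) (G ∪ U_(l+1))`, so in `FG c' ∅` (FGM (5), (2)), and in `RR c'`.
If `J1 ⊇ G ∪ U_c`, `J1.card ≤ (G ∪ U_c).card + c ≤ r`, then `Fi 1 H` gives `Fi (l + 1) H_l` by induction
(`Filt.eul` with `j = l + 1`: `z_l b ∈ J1`), so `Fi (c + 1) H_c`.  VAN (`G := G ∪ U_c`): `H_c = 0`.  So
`H = ∑ y_a h_(c,a)`.  100 lines.  STRONG. -/
def DscStmt : Prop := ∀ c0 ρ c k g : ℕ, ∃ c' r N0 : ℕ, ∀ (E : Type) [Field E] [CharZero E]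
  (y : Fin ρ → MvPolynomial ℕ E) (G : Finset ℕ) (H : FF E), G.card ≤ g → LinearIndependent E y →
    (∀ a, IsUG G (y a)) → Robust N0 (Submodule.span E (Set.range y)) → FG c G H → RR k H →
    (∀ J1 : Finset ℕ, G ⊆ J1 → J1.card ≤ r → ∃ Fi : ℕ → FF E → Prop,
      Filt c0 k y J1 Fi ∧ Fi 1 H) →
    ∃ h : Fin ρ → FF E, H = ∑ a, io E (y a) * h a ∧ ∀ a, FG c' ∅ (h a) ∧ RR c' (h a)

/-! ## Block 4: the filtration at a point, detection -/

/-- ROW EUL.  EULER'S FORMULA for powers of an ideal.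

PROOF.  `Nf f := ∑ a, Y_a δ_a f` is additive and `Nf (f g) = f Nf g + g Nf f`.  Induction on `j`.  `j = 0`:
`Nf f ∈ I`.  `j = 1`: `f = ∑ Y_a r_a` (`Ideal.mem_span_range_iff_exists_fun`):
`Nf f - Δ f = ∑_a ∑_a' Y_a Y_a' δ_a r_a' ∈ I ^ 2`.  Step: `I ^ (j + 1) = I ^ j * I`,
`Submodule.mul_induction_on`/`Ideal.mul` induction: for `g ∈ I ^ j`, `h ∈ I`:
`Nf (g h) - (j + 1) Δ g h = h (Nf g - j Δ g) + g (Nf h - Δ h)`, in `I ^ (j + 1) I` and `I ^ j I ^ 2`.
40 lines. -/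
def EulStmt : Prop := ∀ (R : Type) [CommRing R] (ρ : ℕ) (Y : Fin ρ → R) (Δ : R)
  (δ : Fin ρ → Derivation ℤ R R), (∀ a a', δ a (Y a') = if a = a' then Δ else 0) →
    ∀ (j : ℕ) (f : R), f ∈ Ideal.span (Set.range Y) ^ j →
      (∑ a, Y a * δ a f) - (j : R) * Δ * f ∈ Ideal.span (Set.range Y) ^ (j + 1)

/-- ROW LOC.  THE FILTRATION AT A POINT.

PROOF (from EUL, DER, DLT).  `R' = MvPolynomial ℕ D` (a domain), `φ = Ph ζ J`, `I` = ideal of `R'`
generated by the `φ (y a)`; `e` kills `I`.  Put `Fi j w := ∃ a b, w = io a / io b ∧ e (φ b) ≠ 0 ∧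
∃ s : R', e s ≠ 0 ∧ s * φ a ∈ I ^ j`.
(0) If `Fi j w` and `w = io a' / io b'` with `e (φ b') ≠ 0` then `∃ s, e s ≠ 0 ∧ s * φ a' ∈ I ^ j`: `a b' =
a' b` (`io` injective, `b, b' ≠ 0`), `s φ(a) φ(b') = (s φ(b)) φ(a')`.
`zero`, `add`, `mul`, `mono`, `poly`, `mem`, `unitJ`, `unitK`, `unitM`: direct (`(io h)⁻¹ = io 1 / io h`).
`proper`: `1 = io a / io b` gives `a = b`, `s φ(a) ∈ I`, `e (s φ a) = 0`, a contradiction.
`der0`, `der` for `i ∈ J1 ⊆ J`: `φ (∂_i f) = ∂_i (φ f)` (`pderiv` over `D`; `MvPolynomial.induction_on`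
or derivation extensionality), `dd i w = (b ∂_i a - a ∂_i b) / b ^ 2` (DER), and `∂_i (I ^ (j + 1)) ⊆ I ^ j`
(induction, `I ^ (j + 1) = I ^ j * I`): from `s φ a ∈ I ^ (j + 1)`:
`s ^ 2 φ(∂_i a) = s ∂_i (s φ a) - ∂_i s (s φ a) ∈ I ^ j`.
`eul`: `z b ∈ J1`.  By DLT (`Δ.vars ⊆ image z ∪ G ⊆ J1`): `(VV y z)⁻¹ a b = io n_ab / io Δ`,
`e (φ Δ) ≠ 0` (`hJ`).  The derivations `δ_a := ∑ b, φ(n_ab) ∂_(z b)` of `R'` satisfy
`δ_a (φ y_a') = φ(Δ) [a = a']` (apply `io`, DLT (1)), and `Nf := ∑ a, φ(y_a) δ_a`.  EUL: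
`Nf f - j φ(Δ) f ∈ I ^ (j + 1)` for `f ∈ I ^ j`.  Let `w = io a0 / io b0`, `f = s φ(a0) ∈ I ^ j`:
`s ^ 2 Nf (φ a0) = s Nf f - Nf(s) f` and `Nf(s) ∈ I`, so `s ^ 2 (Nf (φ a0) - j φ(Δ) φ(a0)) ∈ I ^ (j + 1)`.
And `eul y z j w = w - j⁻¹ ∑ y_a δ_a w` with
`∑ y_a del_a w = (b0 N(a0) - a0 N(b0)) / (Δ b0 ^ 2)`, `N := ∑ a b, y_a n_ab ∂_(z b)` on polynomials,
`φ ∘ N = Nf ∘ φ`; so `j Δ b0 ^ 2 * eul w = - b0 (N(a0) - j Δ a0) + a0 N(b0)`, and
`s ^ 2 φ` of this is in `I ^ (j + 1)` because `s ^ 2 φ(a0) Nf(φ b0) ∈ I ^ j I`.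
Zero property: `W = io a / io b`, `φ b ≠ 0`, `φ a = 0`, and `Fi 0 W` gives `W = io a' / io b'`,
`e (φ b') ≠ 0`; `φ(a') φ(b) = φ(a) φ(b') = 0`, so `φ(a') = 0` and `Fi j W`.  250 lines.  VERY STRONG. -/
def LocStmt : Prop := ∀ (E D : Type) [Field E] [CharZero E] [CommRing D] [IsDomain D] [Algebra E D]
  (ρ c0 k : ℕ) (y : Fin ρ → MvPolynomial ℕ E) (ζ : ℕ → D) (G J1 J : Finset ℕ) (Om : Type)
  [Field Om] (e : MvPolynomial ℕ D →+* Om), (∀ a, IsUG G (y a)) → G ⊆ J1 → J1 ⊆ J →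
    (∀ a, e (Ph ζ J (y a)) = 0) →
    (∀ h : MvPolynomial ℕ E, h ≠ 0 → h.vars ⊆ J1 → e (Ph ζ J h) ≠ 0) →
    (∀ h : MvPolynomial ℕ E, h ≠ 0 → h.vars.card ≤ k → e (Ph ζ J h) ≠ 0) →
    (∀ g : MvPolynomial ℕ E, IsUj c0 g → g ∉ Submodule.span E (Set.range y) →
      e (Ph ζ J g) ≠ 0) →
    ∃ Fi : ℕ → FF E → Prop, Filt c0 k y J1 Fi ∧
      ∀ W, Zer ζ J W → Fi 0 W → ∀ j, Fi j W

/-- Statement of PT (block 3, the point; proved by helper58, helper22, helper26). -/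
def PtStmt : Prop := ∀ (E D : Type) [Field E] [CharZero E] [CommRing D] [IsDomain D] [Algebra E D]
  (ρ c0 k N m : ℕ) (y : Fin ρ → MvPolynomial ℕ E) (ζ : ℕ → D) (G J1 : Finset ℕ) (z : Fin ρ → ℕ),
  LinearIndependent E y → (∀ a, IsUG G (y a)) → G ⊆ J1 →
    Robust N (Submodule.span E (Set.range y)) → Piv y z → (∀ b, z b ∉ J1) →
    J1.card + ρ + c0 + ρ + 1 ≤ k → J1.card + ρ + k + ρ ≤ N → k + ρ + 1 ≤ m → Free E m ζ →
    ∃ (Om : Type) (_ : Field Om) (e : MvPolynomial ℕ D →+* Om),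
      (∀ a, e (Ph ζ (J1 ∪ Finset.univ.image z) (y a)) = 0) ∧
      (∀ h : MvPolynomial ℕ E, h ≠ 0 → h.vars.card ≤ k →
        e (Ph ζ (J1 ∪ Finset.univ.image z) h) ≠ 0) ∧
      ∀ g : MvPolynomial ℕ E, IsUj c0 g → g ∉ Submodule.span E (Set.range y) →
        e (Ph ζ (J1 ∪ Finset.univ.image z) g) ≠ 0

/-- ROW FIL.  FILTRATIONS EXIST.

PROOF (from PIV, PT, LOC).  `k' = max k (r + ρ + c0 + ρ + 1)`, `N0 = r + ρ + k' + ρ`,
`m = k' + ρ + 1`.  PIV with `Y = J1`: `z` with `z b ∉ J1`.  PT with `k'`, then LOC (polynomials with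
variables in `J1` have at most `r ≤ k'` variables).  30 lines. -/
def FilStmt : Prop := ∀ c0 ρ k r : ℕ, ∃ N0 m : ℕ, ∀ (E D : Type) [Field E] [CharZero E]
  [CommRing D] [IsDomain D] [Algebra E D] (y : Fin ρ → MvPolynomial ℕ E) (ζ : ℕ → D)
  (G J1 : Finset ℕ), LinearIndependent E y → (∀ a, IsUG G (y a)) → G ⊆ J1 → J1.card ≤ r →
    Robust N0 (Submodule.span E (Set.range y)) → Free E m ζ →
    ∃ J : Finset ℕ, J1 ⊆ J ∧ J.card ≤ r + ρ ∧ ∃ Fi : ℕ → FF E → Prop, Filt c0 k y J1 Fi ∧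
      ∀ W, Zer ζ J W → Fi 0 W → ∀ j, Fi j W

/-- ROW DFI.  The dual derivations and the filtration.

PROOF (from DLT).  `del y z a w = ∑ b, (VV y z)⁻¹ a b * dd (z b) w`, `(VV y z)⁻¹ a b = io n * (io Δ)⁻¹` is
in `Fi 0` (`poly`, `unitJ`, `mul`), `dd (z b)` by `der0`, `der`; sums by `add`.  30 lines. -/
def DfiStmt : Prop := ∀ (E : Type) [Field E] [CharZero E] (ρ c0 k : ℕ)
  (y : Fin ρ → MvPolynomial ℕ E) (G J1 : Finset ℕ) (z : Fin ρ → ℕ) (Fi : ℕ → FF E → Prop),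
  (∀ a, IsUG G (y a)) → G ⊆ J1 → Piv y z → (∀ b, z b ∈ J1) → Filt c0 k y J1 Fi →
    (∀ a w, Fi 0 w → Fi 0 (del y z a w)) ∧ ∀ a j w, Fi (j + 1) w → Fi j (del y z a w)

/-- ROW DDL.  `d` applications of a derivation to `H q_1 ⋯ q_d`.

PROOF.  (1) Induction on `d` (`Function.iterate_succ_apply`).  (2) Induction on `d` for all `H`, `q`:
`δ (H ∏ q_i) = (δ H) ∏ q_i + ∑ i, κ_i H ∏ (i' ≠ i) q_i'` (`Derivation.leibniz`, `leibniz_prod` or
`Fin.prod_univ_succAbove` ...); `(δ H) ∏ q_i` is in `Fi d`, so `δ^[d - 1]` of it is in `Fi 1` by (1); the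
other summands by induction (`Fin d ≃` the complement of `i`; it may be easier to prove the statement for
lists or multisets `q : List (FF E)` with `κ : FF E → E`).  `Fi 1` is closed under differences
(`mul` with `io (-1)`).  `δ^[d-1]` is additive (`iterate_map_add`).  60 lines. -/
def DdlStmt : Prop := ∀ (E : Type) [Field E] (ρ c0 k : ℕ)
  (y : Fin ρ → MvPolynomial ℕ E) (J1 : Finset ℕ) (Fi : ℕ → FF E → Prop), Filt c0 k y J1 Fi →
    ∀ δ : Derivation E (FF E) (FF E), (∀ w, Fi 0 w → Fi 0 (δ w)) →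
      (∀ j w, Fi (j + 1) w → Fi j (δ w)) →
      (∀ d j w, Fi (j + d) w → Fi j ((fun x => δ x)^[d] w)) ∧
      ∀ (q : List (FF E)) (κ : FF E → E) (H : FF E),
        (∀ x ∈ q, Fi 1 x ∧ δ x = algebraMap E (FF E) (κ x)) → Fi 0 H →
        Fi 1 ((fun x => δ x)^[q.length] (H * q.prod) -
          algebraMap E (FF E) ((q.length.factorial : E) * (q.map κ).prod) * H)

open Classical in
/-- ROW DET.  DETECTION.  `θ` is any linear functional which does not vanish on the members of the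
`b t` in `M = span y`; the top terms inside `M` are combined with the weights `1 / ∏ θ(g)`.

PROOF (from DFI, DDL, DLT).  `W = ∑ t, H t / io (b t).prod`, `M = span (range y)`.  For a list `b` let
`bM = b.filter (· ∈ M)`, `bN = b.filter (· ∉ M)`, `b.prod = bM.prod * bN.prod`
(`List.prod_filter_mul_prod_filter_not`-like, or `List.perm`).  `π_t := (b t)M.prod`,
`Q := ∏ t, π_t`, `d := (∑ t, (b t)M.length) - R`.
`io Q * W = ∑ t, H t * ∏ (t' ≠ t) io π_t' * ∏ (g ∈ (b t)N) (io g)⁻¹`; the last factors are in `Fi 0`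
(`unitM`, `IsUj c0 g`, `g ∉ M`); every `g ∈ M` has `Fi 1 (io g)` (`mem`, linear combination).  So
`Fi 0 (io Q * W)`, hence `Fi j (io Q * W)` for all `j`, in particular `Fi (d + 1) (io Q * W)`.  If `t` is
not a top term (length `R`, all members in `M`) then `(b t)M.length ≤ R - 1`, so the `t`-th summand is
in `Fi (d + 1)` (product of at least `d + 1` elements of `Fi 1`); [if there is no top term the
conclusion is `Fi 1 0`].  So `Fi (d + 1) (∑ top t, H t * io q_t)`, `q_t = ∏ (t' ≠ t) π_t'` a product of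
exactly `d` members of `M` (as a list `q'_t`).  Let `δ := ∑ a, θ (y a) • del y z a`: by DLT
`δ (io g) = algebraMap (θ g)` for `g ∈ M` (both sides linear in `g`), and DFI gives the hypotheses of
DDL.  DDL (1): `Fi 1 (δ^[d] (∑ top ...))`; DDL (2) for every top `t`: so
`Fi 1 (∑ top t, d! ∏ (g ∈ q'_t) θ(g) H t)`; multiply by the constant
`(d! ∏ t, ∏ (g ∈ (b t)M) θ g)⁻¹` (not zero: characteristic `0` and the hypothesis on `θ`):
`∏ (g ∈ q'_t) θ g / ∏ t', ∏ (g ∈ (b t')M) θ g = (∏ (g ∈ b t) θ g)⁻¹`.  150 lines.  VERY STRONG. -/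
def DetStmt : Prop := ∀ (E : Type) [Field E] [CharZero E] (ρ c0 k R : ℕ)
  (y : Fin ρ → MvPolynomial ℕ E) (G J1 : Finset ℕ) (z : Fin ρ → ℕ) (Fi : ℕ → FF E → Prop),
  (∀ a, IsUG G (y a)) → G ⊆ J1 → Piv y z → (∀ b, z b ∈ J1) → Filt c0 k y J1 Fi →
    ∀ (ι : Type) [Fintype ι] (H : ι → FF E) (b : ι → List (MvPolynomial ℕ E)),
      (∀ t, Fi 0 (H t)) → (∀ t, (b t).length ≤ R) → (∀ t, ∀ g ∈ b t, g ≠ 0 ∧ IsUj c0 g) →
      (∀ Q : MvPolynomial ℕ E, Fi 0 (io E Q * ∑ t, H t / io E (b t).prod) →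
        ∀ j, Fi j (io E Q * ∑ t, H t / io E (b t).prod)) →
      ∀ θ : MvPolynomial ℕ E →ₗ[E] E,
        (∀ t, ∀ g ∈ b t, g ∈ Submodule.span E (Set.range y) → θ g ≠ 0) →
        Fi 1 (∑ t ∈ Finset.univ.filter fun t => (b t).length = R ∧
          ∀ g ∈ b t, g ∈ Submodule.span E (Set.range y), (((b t).map θ).prod)⁻¹ • H t)

/-! ## Block 5: rewriting -/

/-- ROW LIN.  Linear algebra: if all contractions of a family `(H_t)` with the vectors `(v_t(θ))` lie in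
`𝒩` then the family is the sum of a family in `𝒩` and of combinations of relations.

PROOF.  `V` = span of the vectors `(v t θ)_t` in `ι → E`.  Choose a basis `w_1, ..., w_n` of `ι → E` whose
first `p` members are a basis of `V` (`Submodule.exists_isCompl` + bases, or
`Basis.sumQuot`/`exists_basis...`), and the dual basis `c_1, ..., c_n` (`∑ t, w_i(t) c_j(t) = δ_ij`, so
`∑ j, w_j(s) c_j(t) = δ_st`).  `H t = ∑ j, c_j(t) • (∑ s, w_j(s) • H s)`.  For `j ≤ p` the inner sum is in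
`𝒩` (linear combination of the hypotheses); for `j > p`, `c_j` is orthogonal to `V`.  60 lines.
STRONG. -/
def LinStmt : Prop := ∀ (E X : Type) [Field E] [AddCommGroup X] [Module E X] (𝒩 : Submodule E X)
  (ι Θ : Type) [Fintype ι] (v : ι → Θ → E) (H : ι → X), (∀ θ, ∑ t, v t θ • H t ∈ 𝒩) →
    ∃ (Ψ : ι → X) (n : ℕ) (c : Fin n → ι → E) (x : Fin n → X), (∀ t, Ψ t ∈ 𝒩) ∧
      (∀ l θ, ∑ t, c l t * v t θ = 0) ∧ ∀ t, H t = Ψ t + ∑ l, c l t • x l

/-- ROW RID.  A relation between the functions `θ ↦ 1 / ∏ (g ∈ b t) θ(g)` is a relation between the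
fractions `1 / ∏ b t`.

PROOF.  For `g ∈ span y` write `g = ∑ a, κ_a y_a`, `ℓ_g = ∑ a, κ_a X_a : MvPolynomial (Fin ρ) E`,
`aeval y ℓ_g = g`; `ℓ_g ≠ 0` if `g ≠ 0`.  For `p : Fin ρ → E` there is `θ` with `θ (y a) = p a`
(`LinearIndependent` over a field: `LinearIndependent.extend`/`Basis.constr`, or
`LinearMap.exists_extend` from `span y`), and `θ g = eval p ℓ_g`.
`P = ∑ t, C (c t) * ∏ (t' ≠ t) ∏ (g ∈ b t') ℓ_g`, `S' = ∏ (g ∈ S) ℓ_g`.  `P * S' * ∏ t ∏ (g ∈ b t) ℓ_g`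
vanishes at every `p` (if some factor `ℓ_g(p)`, `g ∈ S`, is zero, clear; otherwise the hypothesis
times the product; note `b t ⊆ S`), so it is zero (`MvPolynomial.funext`, `E` infinite), so `P = 0`.
Apply `aeval y` and `io` and divide by `∏ t, io (b t).prod`.  90 lines.  STRONG. -/
def RidStmt : Prop := ∀ (E : Type) [Field E] [CharZero E] (ρ : ℕ) (y : Fin ρ → MvPolynomial ℕ E),
  LinearIndependent E y → ∀ (S : Finset (MvPolynomial ℕ E)),
    (∀ g ∈ S, g ≠ 0 ∧ g ∈ Submodule.span E (Set.range y)) →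
    ∀ (ι : Type) [Fintype ι] (b : ι → List (MvPolynomial ℕ E)) (c : ι → E),
      (∀ t, ∀ g ∈ b t, g ∈ S) →
      (∀ θ : MvPolynomial ℕ E →ₗ[E] E, (∀ g ∈ S, θ g ≠ 0) →
        ∑ t, c t * (((b t).map θ).prod)⁻¹ = 0) →
      ∑ t, c t • (io E (b t).prod)⁻¹ = 0

/-- ROW WWM.  Monotonicity of `WW`, cancelling one factor, decomposition of `WW`.

PROOF (from FGM, FGS, FGX, RRS).  (1) `Submodule.span_mono`.  (2) `f = ∑ (g ∈ b) μ_g g`
(`Submodule.span_induction` for the statement `io f * h / io b.prod ∈ WW E c0 R c` in `f`; for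
`f = g ∈ b`: `io g / io b.prod = 1 / io (b.erase g).prod`, `List.prod_erase`, `List.length_erase_of_mem`).
(3) length `≤ R + 1` means length `R + 1` (good or bad, `0 ≤ finrank`) or `≤ R`.  (4) The dimension of
the span of a list of length `R` is at most `R`, so there are no generators.  (5) `b = []`:
`w = H / 1`; `Submodule.span_le` with the submodule of FGS.  70 lines. -/
def WwmStmt : Prop := ∀ (E : Type) [Field E] [CharZero E] (c0 : ℕ),
  (∀ R R' c c' : ℕ, R ≤ R' → c ≤ c' → WW E c0 R c ≤ WW E c0 R' c') ∧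
  (∀ (R c : ℕ) (b : List (MvPolynomial ℕ E)) (f : MvPolynomial ℕ E) (h : FF E),
    b.length = R + 1 → (∀ g ∈ b, g ≠ 0 ∧ IsUj c0 g) → f ∈ Submodule.span E {g | g ∈ b} →
    FG c ∅ h → RR c h → io E f * h / io E b.prod ∈ WW E c0 R c) ∧
  (∀ R c N : ℕ, WW E c0 (R + 1) c ≤ GT E c0 N (R + 1) c 0 ⊔ BT E c0 N (R + 1) c ⊔ WW E c0 R c) ∧
  (∀ R c N ρ : ℕ, R < ρ → GT E c0 N R c ρ = ⊥) ∧
  (∀ (c : ℕ) (W : FF E), W ∈ WW E c0 0 c → FG c ∅ W) ∧
  ∀ R c c' N ρ : ℕ, c ≤ c' → GT E c0 N R c ρ ≤ GT E c0 N R c' ρ ∧ BT E c0 N R c ≤ BT E c0 N R c'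

/-- ROW REW.  REWRITING of the terms with a given span.

PROOF (from LIN, RID, WWM, FGS, RRS).  `𝒩` = the submodule of all `∑ a, io (y a) * h a` with
`FG c ∅ (h a)`, `RR c (h a)` (linear because of FGS and RRS).  LIN with
`Θ = {θ // ∀ g ∈ S, θ g ≠ 0}`, `v t θ = ((b t).map θ).prod⁻¹`: `Ψ`, `n`, `c_l`, `x_l`.  Then
`∑ t, H t / io (b t).prod = ∑ t, Ψ t / io (b t).prod + ∑ l, x_l * ∑ t, c_l(t) • (io (b t).prod)⁻¹`, and the
second sum is zero by RID.  `Ψ t = ∑ a, io (y a) * h_(t,a)` and `y a ∈ span (b t)`: WWM (2).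
50 lines. -/
def RewStmt : Prop := ∀ (E : Type) [Field E] [CharZero E] (ρ c0 R c : ℕ)
  (y : Fin ρ → MvPolynomial ℕ E), LinearIndependent E y → ∀ (S : Finset (MvPolynomial ℕ E)),
    (∀ g ∈ S, g ≠ 0 ∧ g ∈ Submodule.span E (Set.range y)) →
    ∀ (ι : Type) [Fintype ι] (H : ι → FF E) (b : ι → List (MvPolynomial ℕ E)),
      (∀ t, (b t).length = R + 1) → (∀ t, ∀ g ∈ b t, g ∈ S ∧ g ≠ 0 ∧ IsUj c0 g) →
      (∀ t, Submodule.span E {g | g ∈ b t} = Submodule.span E (Set.range y)) →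
      (∀ θ : MvPolynomial ℕ E →ₗ[E] E, (∀ g ∈ S, θ g ≠ 0) → ∃ h : Fin ρ → FF E,
        ∑ t, (((b t).map θ).prod)⁻¹ • H t = ∑ a, io E (y a) * h a ∧
          ∀ a, FG c ∅ (h a) ∧ RR c (h a)) →
      ∑ t, H t / io E (b t).prod ∈ WW E c0 R c

/-- ROW BAD.  Bad terms can be shortened.

PROOF (from WWM (2), FGM, FGX, FGZ, RRS).  Generator `w = H / io b.prod`: there is `0 ≠ p ∈ span b` with
`p.vars.card < N`.  `w = io p * (H * (io p)⁻¹) / io b.prod`, `(io p)⁻¹` is in `FG 0 p.vars` (FGP (2), FGZ),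
so in `FG N ∅` (FGM (5), (2)), and in `RR N`; so `H (io p)⁻¹` is in `FG (c + N) ∅` and `RR (c + N)`.
30 lines. -/
def BadStmt : Prop := ∀ (E : Type) [Field E] [CharZero E] (c0 N R c : ℕ),
  BT E c0 N (R + 1) c ≤ WW E c0 R (c + N)

/-! ## Block 6: theorem P -/

/-- ROW ZER.  Calculus of `Zer`.

PROOF (from DER).  (1) `Ph` commutes with `pderiv i`, `i ∈ J` (`MvPolynomial.induction_on`).
(2) `W = io a / io b`: `io Q * W = io (Q a) / io b`.  (3) quotient rule, (1), `D` a domain.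
(4) `Ph ζ J a = map (algebraMap E D) a` if `a.vars ⊆ J` (`hom_congr_vars`), and `algebraMap` is injective.
(5) `a b' = a' b` gives `Ph a' * Ph b = 0`.  60 lines. -/
def ZerStmt : Prop := ∀ (E D : Type) [Field E] [CommRing D] [IsDomain D] [Algebra E D]
  (ζ : ℕ → D) (J : Finset ℕ),
  (∀ i ∈ J, ∀ f : MvPolynomial ℕ E, Ph ζ J (pderiv i f) = pderiv i (Ph ζ J f)) ∧
  (∀ (Q : MvPolynomial ℕ E) (W : FF E), Zer ζ J W → Zer ζ J (io E Q * W)) ∧
  (∀ i ∈ J, ∀ W : FF E, Zer ζ J W → Zer ζ J (dd i W)) ∧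
  (∀ a : MvPolynomial ℕ E, a.vars ⊆ J → Ph ζ J a = 0 → a = 0) ∧
  ∀ a b : MvPolynomial ℕ E, Ph ζ J b ≠ 0 → Zer ζ J (io E a / io E b) → Ph ζ J a = 0

/-- ROW BAS.  The case without denominators.

PROOF (from ZER, FGZ, DER).  Induction on `c` for all `G`, `W`.  `c = 0`, `J = G`:
`W = io a / io b`, `a.vars, b.vars ⊆ G`, `b ≠ 0` (FGZ), so `Ph b ≠ 0` (ZER (4)), `Ph a = 0` (ZER (5)),
`a = 0`.  Step: for `i ∉ G`, `dd i W` is in `FG c (insert i G)` and `Zer ζ J (dd i W)` for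
`insert i G ⊆ J`, `J.card ≤ (insert i G).card + c = G.card + (c + 1)` (ZER (3)); so `dd i W = 0` for all
`i ∉ G`, that is `FG 0 G W`, and the first case (with `J = G`) gives `W = 0`.  40 lines. -/
def BasStmt : Prop := ∀ (E D : Type) [Field E] [CharZero E] [CommRing D] [IsDomain D] [Algebra E D]
  (ζ : ℕ → D) (c : ℕ) (G : Finset ℕ) (W : FF E), FG c G W →
    (∀ J : Finset ℕ, G ⊆ J → J.card ≤ G.card + c → Zer ζ J W) → W = 0

/-- ROW STP.  ONE STEP: the good terms of dimension `ρ` are rewritten.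

PROOF (from FIL, DSC, DET, REW, PIV, FGM, FGP, FGS, RRS, ZER, WWM).  `g = (R + 1) c0`.  `(c₁, r₁, N₁)` from
DSC for `(c0, ρ, c, c, g)`; `(N₂, m)` from FIL for `(c0, ρ, c, r₁ + ρ)`; `c' = max c c₁`,
`r = r₁ + 2 ρ`, `N0 = max (max N₁ N₂) (r₁ + g + ρ)`.  Write `W` as a finite sum `∑ t : ι` of generators
(`Submodule.mem_sup`, `Submodule.mem_span_iff_exists_finset`/`span_induction`; scalars go into `H`):
every `t` has `H t` (`RR c`, `FG c ∅`), `b t` and is good (length `R + 1`, robust span of dimension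
`≥ ρ`), bad (length `R + 1`, span not robust) or short (length `≤ R`).  Let `M` be one of the finitely
many spans of dimension exactly `ρ` of good terms.  Choose `G_M` with `G_M.card ≤ g` and
`IsUG G_M f` for all `f ∈ M` (the union of the junta sets of the members of one `b t`, FGP (3), (5)) and
`y : Fin ρ → A` linearly independent with `span (range y) = M` (`Module.finBasisOfFinrankEq`; also
`IsUG G_M (y a)`).  If `(b t).length = R + 1` and all members are in `M` then `span (b t) ≤ M` is robust,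
so `t` is good, of dimension `≥ ρ`, so `span (b t) = M`.  So the filter in DET (with `R + 1`) is
`T_M = {t | length = R + 1, span (b t) = M}`.  `S` = the set of all members of all `b t` in `M`.
Let `θ` be with `θ g ≠ 0` for `g ∈ S` and `H_θ = ∑ (t ∈ T_M) (∏ θ g)⁻¹ • H t`: `FG c G_M`, `RR c`.
Hypothesis of DSC: let `G_M ⊆ J1`, `J1.card ≤ r₁`.  PIV with `Y = J1`: `z`; `J1' = J1 ∪ image z`;
FIL for `J1'`: `J`, `J.card ≤ r₁ + 2 ρ`, `Fi` with `Filt c0 c y J1' Fi`, so also `Filt c0 c y J1 Fi`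
(fewer conditions).  `Fi 0 (H t)`: `H t = io a / io b'`, `b' ∈ JUN c` (`unitK`, closure induction).
The hypothesis on `io Q * W` of DET: `Zer ζ J W` and ZER (2).  DET: `Fi 1 H_θ`.  DSC: `H_θ = ∑ y_a h_a`.
REW (index type `T_M`): `∑ (t ∈ T_M) H t / io (b t).prod ∈ WW E c0 R c₁`.  All other terms are in
`GT c (ρ + 1)`, `BT c`, `WW R c`.  Sum over the `M`; monotonicity.  200 lines.  VERY STRONG. -/
def StpStmt : Prop := ∀ c0 R c ρ : ℕ, ∃ c' r N0 m : ℕ, c ≤ c' ∧ ∀ N : ℕ, N0 ≤ N →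
  ∀ (E D : Type) [Field E] [CharZero E] [CommRing D] [IsDomain D] [Algebra E D] (ζ : ℕ → D),
    Free E m ζ → ∀ W : FF E,
      W ∈ GT E c0 N (R + 1) c ρ ⊔ BT E c0 N (R + 1) c ⊔ WW E c0 R c →
      (∀ J : Finset ℕ, J.card ≤ r → Zer ζ J W) →
      W ∈ GT E c0 N (R + 1) c' (ρ + 1) ⊔ BT E c0 N (R + 1) c' ⊔ WW E c0 R c'

/-- ROW THP.  THEOREM P.

PROOF (from STP, BAD, WWM, BAS).  Induction on `R` for all `c`.  `R = 0`: WWM (5) and BAS with `G = ∅`,
`r = c`, `m = 0`.  `R + 1`: `c_0 = c`, `c_(ρ+1)` = the `c'` of STP for `(c0, R, c_ρ, ρ)`, `ρ ≤ R + 1`;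
`N`, `r₁`, `m₁` = the maxima of the `N0`, `r`, `m`; `(r₂, m₂)` from the induction hypothesis for
`c_(R+2) + N`; `r = max r₁ r₂`, `m = max m₁ m₂` (`Free` is antitone in `m`).  WWM (3) and `R + 2` times
STP: `W ∈ GT c_(R+2) (R + 2) ⊔ BT ⊔ WW R`, `GT = ⊥` (WWM (4)), BAD: `W ∈ WW R (c_(R+2) + N)`.  80 lines. -/
def ThpStmt : Prop := ∀ c0 R c : ℕ, ∃ r m : ℕ,
  ∀ (E D : Type) [Field E] [CharZero E] [CommRing D] [IsDomain D] [Algebra E D] (ζ : ℕ → D),
    Free E m ζ → ∀ W : FF E, W ∈ WW E c0 R c →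
      (∀ J : Finset ℕ, J.card ≤ r → Zer ζ J W) → W = 0

end Pool.Agent.PW
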