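import Pool.Agent.RS.Defs

set_option autoImplicit false

/-!
# Polynomial-size hitting sets for sums of `k` products of sums of univariates: definitions

Squad PW (`MP_b2b50d_lc`).  Paper proofs: `PAPER_PW58.md` and `PAPER_PW.md` in the team store, with the
ideal power descent (`DSC` below) in place of the operators `S_T`.

A FORM is a polynomial `g = h + ∑ u_i(x_i)`, where `h` is a polynomial in the (few) variables of a set
`G`: `∂_i ∂_j g = 0` for all `i ≠ j` not both in `G`.
-/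

namespace Pool.Agent.PW

open MvPolynomial
open Pool.Agent.RS (FF io)

/-! ## Derivations of the field of fractions -/

section Field

variable {E : Type} [Field E]

open Classical in
/-- The derivation `∂ / ∂ x_i` of the field of fractions. -/
noncomputable def dd (i : ℕ) : Derivation E (FF E) (FF E) :=
  if h : ∃ D : Derivation E (FF E) (FF E), ∀ f, D (io E f) = io E (pderiv i f) then h.choose else 0

/-- `g` is the sum of a polynomial in the variables of `G` and of univariate polynomials. -/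
def IsUG (G : Finset ℕ) (g : MvPolynomial ℕ E) : Prop :=
  ∀ i j : ℕ, i ≠ j → (i ∉ G ∨ j ∉ G) → pderiv i (pderiv j g) = 0

/-- Forms with junta part in at most `c` variables. -/
def IsUj (c : ℕ) (g : MvPolynomial ℕ E) : Prop := ∃ G : Finset ℕ, G.card ≤ c ∧ IsUG G g

variable (E) in
/-- Products of nonzero polynomials in at most `k` variables each. -/
noncomputable def JUN (k : ℕ) : Submonoid (MvPolynomial ℕ E) :=
  Submonoid.closure {b | b ≠ 0 ∧ b.vars.card ≤ k}

/-- Fractions whose denominator is a product of polynomials in at most `k` variables. -/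
def RR (k : ℕ) (w : FF E) : Prop :=
  ∃ a b : MvPolynomial ℕ E, b ∈ JUN E k ∧ w = io E a / io E b

/-- All mixed derivatives of `f` in `c + 1` different variables outside `G` vanish. -/
def FG : ℕ → Finset ℕ → FF E → Prop
  | 0, G, f => ∀ i ∉ G, dd i f = 0
  | c + 1, G, f => ∀ i ∉ G, FG c (insert i G) (dd i f)

/-- Every nonzero element of `M` has at least `N` variables. -/
def Robust (N : ℕ) (M : Submodule E (MvPolynomial ℕ E)) : Prop :=
  ∀ g ∈ M, g ≠ 0 → N ≤ g.vars.card

/-! ## Pivot sets, dual derivations, the Euler operators -/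

/-- The matrix `(∂_(z b) y_a)_(b, a)`. -/
noncomputable def VV {ρ : ℕ} (y : Fin ρ → MvPolynomial ℕ E) (z : Fin ρ → ℕ) :
    Matrix (Fin ρ) (Fin ρ) (FF E) :=
  Matrix.of fun b a => io E (pderiv (z b) (y a))

/-- `z` is a pivot set for `y`. -/
def Piv {ρ : ℕ} (y : Fin ρ → MvPolynomial ℕ E) (z : Fin ρ → ℕ) : Prop :=
  Function.Injective z ∧ (VV y z).det ≠ 0

/-- The derivations dual to `y` along the variables of `z`: `del y z a (y a') = 1` for `a = a'` and `0`
otherwise, if `z` is a pivot set. -/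
noncomputable def del {ρ : ℕ} (y : Fin ρ → MvPolynomial ℕ E) (z : Fin ρ → ℕ) (a : Fin ρ) :
    Derivation E (FF E) (FF E) :=
  ∑ b, (VV y z)⁻¹ a b • dd (z b)

/-- The operator `H ↦ H - (1 / j) ∑ a, y_a δ_a H`. -/
noncomputable def eul {ρ : ℕ} (y : Fin ρ → MvPolynomial ℕ E) (z : Fin ρ → ℕ) (j : ℕ) (H : FF E) :
    FF E :=
  H - (j : FF E)⁻¹ * ∑ a, io E (y a) * del y z a H

/-! ## Terms -/

/-- Sums of fractions `H / ∏ b`, where `b` is a list of at most `R` nonzero forms (junta parts in at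
most `c0` variables) and `H` has denominators in `JUN c` and vanishing mixed derivatives in `c + 1`
different variables. -/
noncomputable def WW (E : Type) [Field E] (c0 R c : ℕ) : Submodule E (FF E) :=
  Submodule.span E {w | ∃ (H : FF E) (b : List (MvPolynomial ℕ E)), RR c H ∧ FG c ∅ H ∧
    b.length ≤ R ∧ (∀ g ∈ b, g ≠ 0 ∧ IsUj c0 g) ∧ w = H / io E b.prod}

/-- Sums of good terms of length exactly `R`: the span of `b` is `N`-robust of dimension `≥ ρ`. -/
noncomputable def GT (E : Type) [Field E] (c0 N R c ρ : ℕ) : Submodule E (FF E) :=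
  Submodule.span E {w | ∃ (H : FF E) (b : List (MvPolynomial ℕ E)), RR c H ∧ FG c ∅ H ∧
    b.length = R ∧ (∀ g ∈ b, g ≠ 0 ∧ IsUj c0 g) ∧
    Robust N (Submodule.span E {g | g ∈ b}) ∧
    ρ ≤ Module.finrank E (Submodule.span E {g | g ∈ b}) ∧ w = H / io E b.prod}

/-- Sums of bad terms of length exactly `R`. -/
noncomputable def BT (E : Type) [Field E] (c0 N R c : ℕ) : Submodule E (FF E) :=
  Submodule.span E {w | ∃ (H : FF E) (b : List (MvPolynomial ℕ E)), RR c H ∧ FG c ∅ H ∧
    b.length = R ∧ (∀ g ∈ b, g ≠ 0 ∧ IsUj c0 g) ∧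
    ¬ Robust N (Submodule.span E {g | g ∈ b}) ∧ w = H / io E b.prod}

/-! ## The filtration at a point -/

/-- A filtration of a subring of the field of fractions by powers of the ideal of the `y_a`, at a point
where the variables of `J1` are independent: see the row `LOC`. -/
structure Filt {ρ : ℕ} (c0 k : ℕ) (y : Fin ρ → MvPolynomial ℕ E) (J1 : Finset ℕ)
    (Fi : ℕ → FF E → Prop) : Prop where
  zero : ∀ j, Fi j 0
  add : ∀ j v w, Fi j v → Fi j w → Fi j (v + w)
  mul : ∀ j l v w, Fi j v → Fi l w → Fi (j + l) (v * w)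
  mono : ∀ j w, Fi (j + 1) w → Fi j w
  poly : ∀ a : MvPolynomial ℕ E, Fi 0 (io E a)
  mem : ∀ a, Fi 1 (io E (y a))
  der0 : ∀ i ∈ J1, ∀ w, Fi 0 w → Fi 0 (dd i w)
  der : ∀ i ∈ J1, ∀ j w, Fi (j + 1) w → Fi j (dd i w)
  eul : ∀ z : Fin ρ → ℕ, Piv y z → (∀ b, z b ∈ J1) → ∀ j w, 0 < j → Fi j w → Fi (j + 1) (eul y z j w)
  unitJ : ∀ h : MvPolynomial ℕ E, h ≠ 0 → h.vars ⊆ J1 → Fi 0 (io E h)⁻¹
  unitK : ∀ h : MvPolynomial ℕ E, h ≠ 0 → h.vars.card ≤ k → Fi 0 (io E h)⁻¹
  unitM : ∀ g : MvPolynomial ℕ E, IsUj c0 g → g ∉ Submodule.span E (Set.range y) → Fi 0 (io E g)⁻¹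
  proper : ¬ Fi 1 1

end Field

/-! ## Specialisation -/

section Spec

variable {E D : Type} [Field E] [CommRing D] [Algebra E D]

/-- The specialisation `x_j ↦ x_j` (`j ∈ J`), `x_l ↦ ζ_l` (`l ∉ J`). -/
noncomputable def Ph (ζ : ℕ → D) (J : Finset ℕ) : MvPolynomial ℕ E →ₐ[E] MvPolynomial ℕ D :=
  aeval fun i => if i ∈ J then X i else C (ζ i)

/-- The specialisation of `W` is defined and zero. -/
def Zer (ζ : ℕ → D) (J : Finset ℕ) (W : FF E) : Prop :=
  ∃ a b : MvPolynomial ℕ E, W = io E a / io E b ∧ Ph ζ J b ≠ 0 ∧ Ph ζ J a = 0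

/-- Any `m` of the `ζ_i` can be specialised to variables, the others to `0`. -/
def Free (E : Type) {D : Type} [Field E] [CommRing D] [Algebra E D] (m : ℕ) (ζ : ℕ → D) : Prop :=
  ∀ I : Finset ℕ, I.card ≤ m → ∃ π : D →ₐ[E] MvPolynomial ℕ E,
    (∀ i ∈ I, π (ζ i) = X i) ∧ ∀ i ∉ I, π (ζ i) = 0

end Spec

end Pool.Agent.PW
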